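import Pool.Agent.Y103.TO.Fam

/-!
# All recursion operators of the family
-/

set_option autoImplicit false

namespace Pool.Agent.Y103.TO

open PowerSeries
open Pool.Agent.Helper974.DiffPoly
open Pool.Agent.Results.MP_1a410c_mp.Compatible (DOp lead)

noncomputable section

variable {m : ℕ}

lemma lead_C (r : ℝ) (s : PowerSeries ℝ) (x : (U0 m).pts) :
    lead (W (C r * s)) x = r • lead (W s) x := by
  ext i j
  rw [Matrix.smul_apply, lead_W, lead_W, mul_assoc, mul_assoc, gM_C, smul_eq_mul]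

theorem lead_poly (q : Polynomial ℝ) (s : PowerSeries ℝ) (x : (U0 m).pts) :
    lead (W ((q : PowerSeries ℝ) * s)) x = lead (W s) x * Polynomial.aeval (Sh m) q := by
  induction q using Polynomial.induction_on' with
  | add p q hp hq => rw [Polynomial.coe_add, add_mul, lead_add, hp, hq, map_add, mul_add]
  | monomial n a =>
    have h1 : ((Polynomial.monomial n a : Polynomial ℝ) : PowerSeries ℝ) = C a * X ^ n := by
      rw [← Polynomial.C_mul_X_pow_eq_monomial, Polynomial.coe_mul, Polynomial.coe_C,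
        Polynomial.coe_pow, Polynomial.coe_X]
    rw [h1, mul_assoc, lead_C, lead_pow, Polynomial.aeval_monomial, ← Algebra.smul_def,
      mul_smul_comm]

/-- the polynomial with the coefficients `K` -/
def Hp (K : Fin (m + 1) → ℝ) : Polynomial ℝ := ∑ l, Polynomial.C (K l) * Polynomial.X ^ (l : ℕ)

lemma coe_Hp (K : Fin (m + 1) → ℝ) : ((Hp K : Polynomial ℝ) : PowerSeries ℝ) = H K := by
  rw [H, Hp]
  have h := map_sum (Polynomial.coeToPowerSeries.ringHom (R := ℝ))
    (fun l : Fin (m + 1) => Polynomial.C (K l) * Polynomial.X ^ (l : ℕ)) Finset.univ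
  simp only [Polynomial.coeToPowerSeries.ringHom_apply] at h
  rw [h]
  refine Finset.sum_congr rfl fun l _ => ?_
  rw [Polynomial.coe_mul, Polynomial.coe_C, Polynomial.coe_pow, Polynomial.coe_X]

lemma lead_trunc (y : PowerSeries ℝ) (x : (U0 m).pts) :
    lead (Fam m fun k => coeff (k : ℕ) y) x = lead (W y) x := by
  obtain ⟨z, hz⟩ := trunc (m := m) y
  have h2 := lead_add (H fun k : Fin (m + 1) => coeff (k : ℕ) y) (X ^ (m + 1) * z) x
  rw [lead_high, add_zero, ← hz] at h2
  exact h2.symm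

lemma coeff_zero_H {s : Fin (m + 1) → ℝ} (h : s 0 ≠ 0) : coeff 0 (H s) ≠ 0 := by
  have := coeff_H s 0
  rw [Fin.val_zero] at this
  rw [this]
  exact h

/-- every polynomial in the shift is a recursion operator -/
theorem exists_poly {s : Fin (m + 1) → ℝ} (h : s 0 ≠ 0) (q : Polynomial ℝ) :
    ∃ t, ∀ x : (U0 m).pts,
      (lead (Fam m s) x)⁻¹ * lead (Fam m t) x = Polynomial.aeval (Sh m) q := by
  refine ⟨fun k => coeff (k : ℕ) ((q : PowerSeries ℝ) * H s), fun x => ?_⟩
  have hu : IsUnit (lead (W (H s)) x).det := (det_lead (coeff_zero_H h) x).isUnit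
  rw [lead_trunc, lead_poly]
  show (lead (W (H s)) x)⁻¹ * (lead (W (H s)) x * _) = _
  rw [← mul_assoc, Matrix.nonsing_inv_mul _ hu, one_mul]

/-- every recursion operator is a polynomial in the shift, the same at all points -/
theorem is_poly {s : Fin (m + 1) → ℝ} (h : s 0 ≠ 0) (t : Fin (m + 1) → ℝ) :
    ∃ q : Polynomial ℝ, ∀ x : (U0 m).pts,
      (lead (Fam m s) x)⁻¹ * lead (Fam m t) x = Polynomial.aeval (Sh m) q := by
  have h0 := inv_s (coeff_zero_H h)
  obtain ⟨z, hz⟩ := trunc (m := m) (H t * (H s)⁻¹)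
  refine ⟨Hp fun k : Fin (m + 1) => coeff (k : ℕ) (H t * (H s)⁻¹), fun x => ?_⟩
  have hu : IsUnit (lead (W (H s)) x).det := (det_lead (coeff_zero_H h) x).isUnit
  have h1 : H t = ((Hp fun k : Fin (m + 1) => coeff (k : ℕ) (H t * (H s)⁻¹) :
      Polynomial ℝ) : PowerSeries ℝ) * H s + X ^ (m + 1) * (z * H s) := by
    rw [coe_Hp]
    linear_combination (-(H t)) * h0 + (H s) * hz
  have h2 : lead (Fam m t) x = lead (W (H s)) x
      * Polynomial.aeval (Sh m) (Hp fun k : Fin (m + 1) => coeff (k : ℕ) (H t * (H s)⁻¹)) := by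
    have h3 := lead_add ((((Hp fun k : Fin (m + 1) => coeff (k : ℕ) (H t * (H s)⁻¹) :
      Polynomial ℝ) : PowerSeries ℝ)) * H s) (X ^ (m + 1) * (z * H s)) x
    rw [← h1, lead_high, add_zero, lead_poly] at h3
    exact h3
  rw [h2]
  show (lead (W (H s)) x)⁻¹ * (lead (W (H s)) x * _) = _
  rw [← mul_assoc, Matrix.nonsing_inv_mul _ hu, one_mul]

end

end Pool.Agent.Y103.TO
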