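import Pool.Agent.Results.MP_1a410c_mp.Compatible

/-!
# Linear families of operators of order three: definitions
-/

set_option autoImplicit false

namespace Pool.Agent.Y103.TO

open Pool.Agent.Helper974.DiffPoly
open Pool.Agent.Results.MP_1a410c_mp.Compatible (DOp IsPoisson lead IsGeometric NotDarboux)

noncomputable section

variable {n k : ℕ} {U : Dom n}

/-- the family depends additively on the parameters -/
def IsAdditive (P : (Fin k → ℝ) → DOp U) : Prop := ∀ s t, P (s + t) = P s + P t

/-- the family is homogeneous in the parameters -/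
def IsHomog (P : (Fin k → ℝ) → DOp U) : Prop := ∀ (r : ℝ) (s : Fin k → ℝ), P (r • s) = r • P s

/-- the parameters form the space `ℝ^k` and the family is linear and injective -/
def IsLinearFamily (P : (Fin k → ℝ) → DOp U) : Prop :=
  IsAdditive P ∧ IsHomog P ∧ Function.Injective P

/-- all operators of the family are Poisson -/
def AllPoisson (P : (Fin k → ℝ) → DOp U) : Prop := ∀ s, IsPoisson (P s)

/-- the operators with `s_0 ≠ 0` are geometric Poisson structures of order three and not
Darboux-Poisson -/
def GenericGeometric (P : (Fin (k + 1) → ℝ) → DOp U) : Prop :=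
  ∀ s, s 0 ≠ 0 → IsGeometric (P s) ∧ NotDarboux (P s)

/-- the recursion operator of two structures at a point: the matrix `g₁⁻¹ g₂` -/
def recOp (P₁ P₂ : DOp U) (x : U.pts) : Matrix (Fin n) (Fin n) ℝ := (lead P₁ x)⁻¹ * lead P₂ x

/-- the matrix is a polynomial in `S` -/
def IsPolyIn (S M : Matrix (Fin n) (Fin n) ℝ) : Prop := ∃ q : Polynomial ℝ, M = Polynomial.aeval S q

/-- `S` is nilpotent of index exactly `k + 1` -/
def IsNilOfIndexSucc (S : Matrix (Fin n) (Fin n) ℝ) (k : ℕ) : Prop := S ^ (k + 1) = 0 ∧ S ^ k ≠ 0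

/-- if `s_0 ≠ 0`, the recursion operators of `P s` and `P t` are the polynomials in `S`, the same
polynomial at all points -/
def RecursionOperators (P : (Fin (k + 1) → ℝ) → DOp U) (S : Matrix (Fin n) (Fin n) ℝ) : Prop :=
  ∀ s, s 0 ≠ 0 → ∀ M : Matrix (Fin n) (Fin n) ℝ,
    IsPolyIn S M ↔ ∃ t, ∀ x : U.pts, recOp (P s) (P t) x = M

/-- for `s_0 ≠ 0` the recursion operator of `P s` and `P t` does not depend on the point -/
def ConstantRecursion (P : (Fin (k + 1) → ℝ) → DOp U) : Prop :=
  ∀ s, s 0 ≠ 0 → ∀ t, ∀ x y : U.pts, recOp (P s) (P t) x = recOp (P s) (P t) y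

end

end Pool.Agent.Y103.TO
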