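import Pool.Agent.Y103.TO.Geo

/-!
# Linearity of the family, and the recursion operators
-/

set_option autoImplicit false

namespace Pool.Agent.Y103.TO

open PowerSeries
open Pool.Agent.Helper974.Diff Pool.Agent.Helper974.Ham Pool.Agent.Helper974.DiffPoly
  Pool.Agent.Helper974.Third
open Pool.Agent.Results.MP_1a410c_mp.Compatible (DOp act br Exact IsPoisson lead IsGeometric gam
  flatOp act_flatOp D_C exact_iff hom_flatOp NotDarboux)

noncomputable section

variable {m : ℕ}

/-! not Darboux -/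

lemma coeff0_mul {V : Type} [CommRing V] (x y : PowerSeries V) :
    coeff 0 (x * y) = coeff 0 x * coeff 0 y := by
  simp only [coeff_zero_eq_constantCoeff_apply, map_mul]

lemma coeff0_one {V : Type} [CommRing V] : coeff 0 (1 : PowerSeries V) = 1 := by
  rw [coeff_zero_eq_constantCoeff_apply, map_one]

lemma cz_mul : (coord (I0 0) : RegT (U0 m)) * coeff 0 (cR m) = 1 := by
  have h := congrArg (coeff 0) (a_mul_c (m := m))
  rw [coeff0_mul, coeff0_one] at h
  have h1 : coeff 0 (aR m) = (coord (I0 0) : RegT (U0 m)) :=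
    coeff_H (fun k : Fin (m + 1) => (coord (I0 k) : RegT (U0 m))) 0
  rwa [h1] at h

lemma dR_cz : dR (I0 0) (coeff 0 (cR m)) = - (coeff 0 (cR m)) ^ 2 := by
  have h := congrArg (dR (I0 0)) (cz_mul (m := m))
  rw [Derivation.leibniz, Derivation.map_one_eq_zero, dR_coord, if_pos rfl, smul_eq_mul,
    smul_eq_mul, mul_one] at h
  linear_combination (coeff 0 (cR m)) * h - (dR (I0 0) (coeff 0 (cR m))) * cz_mul (m := m)

theorem notDarboux_W {s : PowerSeries ℝ} (h : coeff 0 s ≠ 0) : NotDarboux (W (m := m) s) := by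
  refine ⟨gW s, cW s, rfl, I0 0, I1 (Fin.last m), I0 0, fun x => ?_⟩
  have h1 : hW (m := m) s (I0 0) (I1 (Fin.last m))
      = algebraMap ℝ (RegT (U0 m)) (coeff 0 s) * coeff 0 (cR m) := by
    simp only [hW, hM, Fin.addCases_left, Fin.addCases_right, T, Fin.val_last, Nat.sub_self,
      pow_zero, mul_one, Fin.val_zero]
    rw [coeff_zero_eq_constantCoeff_apply, map_mul, ← coeff_zero_eq_constantCoeff_apply,
      ← coeff_zero_eq_constantCoeff_apply, coeff_sV]
  have h2 : cW (m := m) s (I0 0) (I1 (Fin.last m)) (I0 0)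
      = algebraMap ℝ (RegT (U0 m)) (coeff 0 s) * (- (coeff 0 (cR m)) ^ 2) := by
    rw [cW, h1, Derivation.leibniz, Derivation.map_algebraMap, smul_zero, add_zero, dR_cz,
      smul_eq_mul]
  rw [h2]
  show coeff 0 s * (- (evH x (coeff 0 (cR m))) ^ 2) ≠ 0
  have h3 : evH x (coord (I0 0)) * evH x (coeff 0 (cR m)) = 1 := by
    rw [← map_mul, cz_mul, map_one]
  have h4 : evH x (coeff 0 (cR m)) ≠ 0 := right_ne_zero_of_mul_eq_one h3
  exact mul_ne_zero h (neg_ne_zero.2 (pow_ne_zero 2 h4))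

/-! linearity -/

lemma T_add {V : Type} [CommRing V] (x y : PowerSeries V) (k l : Fin (m + 1)) :
    T m (x + y) k l = T m x k l + T m y k l := by
  rw [T, T, T, add_mul, map_add]

lemma T_C {V : Type} [CommRing V] (r : V) (y : PowerSeries V) (k l : Fin (m + 1)) :
    T m (C r * y) k l = r * T m y k l := by
  rw [T, T, mul_assoc, coeff_C_mul]

lemma gM_add {V : Type} [CommRing V] (x y x' y' : PowerSeries V)
    (i j : Fin ((m + 1) + (m + 1))) :
    gM m (x + x') (y + y') i j = gM m x y i j + gM m x' y' i j := by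
  refine Fin.addCases (fun k => ?_) (fun k => ?_) i <;>
  refine Fin.addCases (fun l => ?_) (fun l => ?_) j <;>
  simp only [gM, Fin.addCases_left, Fin.addCases_right, T_add, mul_add, add_zero]

lemma hM_add {V : Type} [CommRing V] (x y x' y' : PowerSeries V)
    (i j : Fin ((m + 1) + (m + 1))) :
    hM m (x + x') (y + y') i j = hM m x y i j + hM m x' y' i j := by
  refine Fin.addCases (fun k => ?_) (fun k => ?_) i <;>
  refine Fin.addCases (fun l => ?_) (fun l => ?_) j <;>
  simp only [hM, Fin.addCases_left, Fin.addCases_right, T_add, add_zero]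

lemma gM_C {V : Type} [CommRing V] (r : V) (x y : PowerSeries V)
    (i j : Fin ((m + 1) + (m + 1))) : gM m (C r * x) (C r * y) i j = r * gM m x y i j := by
  refine Fin.addCases (fun k => ?_) (fun k => ?_) i <;>
  refine Fin.addCases (fun l => ?_) (fun l => ?_) j <;>
  simp only [gM, Fin.addCases_left, Fin.addCases_right, T_C, mul_zero, mul_left_comm r]

lemma hM_C {V : Type} [CommRing V] (r : V) (x y : PowerSeries V)
    (i j : Fin ((m + 1) + (m + 1))) : hM m (C r * x) (C r * y) i j = r * hM m x y i j := by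
  refine Fin.addCases (fun k => ?_) (fun k => ?_) i <;>
  refine Fin.addCases (fun l => ?_) (fun l => ?_) j <;>
  simp only [hM, Fin.addCases_left, Fin.addCases_right, T_C, mul_zero]

lemma gW_add (s t : PowerSeries ℝ) (i j : Fin ((m + 1) + (m + 1))) :
    gW (s + t) i j = gW s i j + gW t i j := by
  rw [gW, gW, gW, sV_add, add_mul, add_mul, gM_add]

lemma hW_add (s t : PowerSeries ℝ) (i j : Fin ((m + 1) + (m + 1))) :
    hW (s + t) i j = hW s i j + hW t i j := by
  rw [hW, hW, hW, sV_add, add_mul, add_mul, hM_add]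

lemma gW_C (r : ℝ) (s : PowerSeries ℝ) (i j : Fin ((m + 1) + (m + 1))) :
    gW (C r * s) i j = r • gW s i j := by
  rw [gW, gW, sV_C, mul_assoc, mul_assoc, gM_C, Algebra.smul_def]

lemma hW_C (r : ℝ) (s : PowerSeries ℝ) (i j : Fin ((m + 1) + (m + 1))) :
    hW (C r * s) i j = r • hW s i j := by
  rw [hW, hW, sV_C, mul_assoc, mul_assoc, hM_C, Algebra.smul_def]

lemma C_smul' (t : ℝ) (h : RegT (U0 m)) :
    (MvPolynomial.C (t • h) : DP (U0 m)) = t • MvPolynomial.C h := by
  rw [Algebra.smul_def, Algebra.smul_def, map_mul]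
  rfl

/-- the structure as a function of its coefficients -/
def Phi (g h : RegT (U0 m)) : Fin 4 → DP (U0 m) :=
  ![0, (dpAlg (U0 m)).D ((dpAlg (U0 m)).D (MvPolynomial.C h)),
    (dpAlg (U0 m)).D (MvPolynomial.C g) + (dpAlg (U0 m)).D (MvPolynomial.C h),
    MvPolynomial.C g]

lemma W_eq (s : PowerSeries ℝ) (i j : Fin ((m + 1) + (m + 1))) :
    W s i j = Phi (gW s i j) (hW s i j) := by
  rw [W, flatOp, Phi, gam_W, ← D_eq, ← D_eq]

lemma Phi_add (g h g' h' : RegT (U0 m)) : Phi (g + g') (h + h') = Phi g h + Phi g' h' := by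
  funext k
  fin_cases k <;> simp [Phi]
  abel

lemma Phi_smul (r : ℝ) (g h : RegT (U0 m)) : Phi (r • g) (r • h) = r • Phi g h := by
  funext k
  fin_cases k <;> simp [Phi, C_smul']

lemma W_add (s t : PowerSeries ℝ) : W (m := m) (s + t) = W s + W t := by
  funext i j
  rw [W_eq, gW_add, hW_add, Phi_add, ← W_eq, ← W_eq]
  rfl

lemma W_C (r : ℝ) (s : PowerSeries ℝ) : W (m := m) (C r * s) = r • W s := by
  funext i j
  rw [W_eq, gW_C, hW_C, Phi_smul, ← W_eq]
  rfl

lemma H_add {V : Type} [CommRing V] (s t : Fin (m + 1) → V) : H (s + t) = H s + H t := by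
  rw [H, H, H, ← Finset.sum_add_distrib]
  refine Finset.sum_congr rfl fun k _ => ?_
  rw [Pi.add_apply, map_add, add_mul]

lemma H_smul (r : ℝ) (t : Fin (m + 1) → ℝ) : H (r • t) = C r * H t := by
  rw [H, H, Finset.mul_sum]
  refine Finset.sum_congr rfl fun k _ => ?_
  rw [Pi.smul_apply, smul_eq_mul, map_mul, mul_assoc]

/-- the linear family -/
def Fam (m : ℕ) : (Fin (m + 1) → ℝ) →ₗ[ℝ] DOp (U0 m) where
  toFun s := W (H s)
  map_add' s t := by rw [H_add, W_add]
  map_smul' r s := by rw [H_smul, W_C, RingHom.id_apply]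

/-! the recursion operators -/

lemma T_high {V : Type} [CommRing V] (y : PowerSeries V) (k l : Fin (m + 1)) :
    T m (X ^ (m + 1) * y) k l = 0 := by
  have hk := k.2
  rw [T, mul_assoc, coeff_X_pow_mul', if_neg (by omega)]

lemma gM_high {V : Type} [CommRing V] (x y : PowerSeries V) (i j : Fin ((m + 1) + (m + 1))) :
    gM m (X ^ (m + 1) * x) (X ^ (m + 1) * y) i j = 0 := by
  refine Fin.addCases (fun k => ?_) (fun k => ?_) i <;>
  refine Fin.addCases (fun l => ?_) (fun l => ?_) j <;>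
  simp only [gM, Fin.addCases_left, Fin.addCases_right, T_high, mul_zero]

/-- the shift matrix -/
def Sh (m : ℕ) : Matrix (Fin ((m + 1) + (m + 1))) (Fin ((m + 1) + (m + 1))) ℝ := fun i j =>
  Fin.addCases (fun k => Fin.addCases
      (fun l => if (l : ℕ) = (k : ℕ) + 1 then (1 : ℝ) else 0) (fun _ => 0) j)
    (fun k => Fin.addCases (fun _ => (0 : ℝ))
      (fun l => if (l : ℕ) = (k : ℕ) + 1 then 1 else 0) j) i

lemma T_shift (y : PowerSeries ℝ) (k l : Fin (m + 1)) :
    T m (X * y) k l = ∑ p, T m y k p * (if (l : ℕ) = (p : ℕ) + 1 then (1 : ℝ) else 0) := by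
  have hk := k.2
  obtain ⟨l, hl⟩ := l
  rcases l with _ | l
  · rw [Finset.sum_eq_zero]
    · have e : X * y * X ^ (m - 0) = X ^ (m + 1) * y := by
        rw [Nat.sub_zero, pow_succ]
        ring
      show coeff (k : ℕ) (X * y * X ^ (m - 0)) = 0
      rw [e, coeff_X_pow_mul', if_neg (by omega)]
    · intro p _
      rw [if_neg (by simp), mul_zero]
  · rw [Finset.sum_eq_single ⟨l, by omega⟩]
    · have e : X * y * X ^ (m - (l + 1)) = y * X ^ (m - l) := by
        have : m - l = m - (l + 1) + 1 := by omega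
        rw [this, pow_succ]
        ring
      show coeff (k : ℕ) (X * y * X ^ (m - (l + 1))) = coeff (k : ℕ) (y * X ^ (m - l)) * _
      rw [e, if_pos rfl, mul_one]
    · intro p _ hp
      rw [if_neg, mul_zero]
      intro h
      apply hp
      exact Fin.ext (by simpa using h.symm)
    · intro h
      exact absurd (Finset.mem_univ _) h

lemma lead_shift (s : PowerSeries ℝ) (x : (U0 m).pts) :
    lead (W (X * s)) x = lead (W s) x * Sh m := by
  ext i j
  rw [Matrix.mul_apply, Fin.sum_univ_add]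
  simp only [lead_W]
  have e1 : X * s * cx x = X * (s * cx x) := by ring
  have e2 : X * s * (mp (evH x) (bR m) * cx x ^ 2)
      = X * (s * (mp (evH x) (bR m) * cx x ^ 2)) := by ring
  rw [e1, e2]
  refine Fin.addCases (fun k => ?_) (fun k => ?_) i <;>
  refine Fin.addCases (fun l => ?_) (fun l => ?_) j <;>
  simp only [gM, Sh, Fin.addCases_left, Fin.addCases_right, T_shift, mul_zero, zero_mul,
    Finset.sum_const_zero, add_zero, zero_add, Finset.mul_sum, mul_assoc]

lemma lead_pow (s : PowerSeries ℝ) (x : (U0 m).pts) (j : ℕ) :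
    lead (W (X ^ j * s)) x = lead (W s) x * Sh m ^ j := by
  induction j with
  | zero => rw [pow_zero, one_mul, pow_zero, mul_one]
  | succ j ih => rw [pow_succ', mul_assoc, lead_shift, ih, pow_succ, mul_assoc]

lemma lead_high (s : PowerSeries ℝ) (x : (U0 m).pts) : lead (W (X ^ (m + 1) * s)) x = 0 := by
  ext i j
  rw [lead_W, mul_assoc, mul_assoc, gM_high]
  rfl

lemma lead_add (s t : PowerSeries ℝ) (x : (U0 m).pts) :
    lead (W (s + t)) x = lead (W s) x + lead (W t) x := by
  ext i j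
  rw [Matrix.add_apply, lead_W, lead_W, lead_W, add_mul, add_mul, gM_add]

theorem recursion {s : PowerSeries ℝ} (h : coeff 0 s ≠ 0) (x : (U0 m).pts) :
    (lead (W s) x)⁻¹ * lead (W (X * s)) x = Sh m := by
  have hu : IsUnit (lead (W s) x).det := (det_lead h x).isUnit
  rw [lead_shift, ← mul_assoc, Matrix.nonsing_inv_mul _ hu, one_mul]

theorem Sh_zero : Sh m ^ (m + 1) = 0 := by
  have hx : (fun _ => 1 : Fin ((m + 1) + (m + 1)) → ℝ) ∈ (U0 m).pts :=
    show (0 : ℝ) < 1 by norm_num
  have h1 : coeff 0 (1 : PowerSeries ℝ) ≠ 0 := by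
    rw [coeff_zero_eq_constantCoeff_apply, map_one]
    exact one_ne_zero
  have hu : IsUnit (lead (W (1 : PowerSeries ℝ)) ⟨_, hx⟩).det := (det_lead h1 _).isUnit
  have h2 := lead_pow (m := m) 1 ⟨_, hx⟩ (m + 1)
  rw [lead_high] at h2
  have h3 := congrArg (fun M => (lead (W (1 : PowerSeries ℝ)) ⟨_, hx⟩)⁻¹ * M) h2
  simpa [← mul_assoc, Matrix.nonsing_inv_mul _ hu] using h3.symm

theorem Sh_ne_zero : Sh m ^ m ≠ 0 := by
  intro h0
  have hx : (fun _ => 1 : Fin ((m + 1) + (m + 1)) → ℝ) ∈ (U0 m).pts :=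
    show (0 : ℝ) < 1 by norm_num
  have h2 := lead_pow (m := m) 1 ⟨_, hx⟩ m
  rw [h0, mul_zero] at h2
  have h3 := congrFun (congrFun h2 (I0 (Fin.last m))) (I1 (Fin.last m))
  rw [lead_W] at h3
  simp only [gM, Fin.addCases_left, Fin.addCases_right, T, Fin.val_last, Nat.sub_self, pow_zero,
    mul_one, Matrix.zero_apply] at h3
  rw [coeff_X_pow_mul', if_pos le_rfl, Nat.sub_self] at h3
  have h4 := congrArg (coeff 0) (cx_unit (m := m) ⟨_, hx⟩)
  rw [coeff0_mul, coeff0_one, h3, mul_zero] at h4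
  exact zero_ne_one h4

/-! injectivity -/

lemma lead_zero (x : (U0 m).pts) : lead (0 : DOp (U0 m)) x = 0 := by
  ext i j
  show ev ((0 : DP (U0 m)).coeff 0) x = 0
  rw [MvPolynomial.coeff_zero]
  rfl

theorem Fam_injective : Function.Injective (Fam m) := by
  rw [injective_iff_map_eq_zero]
  intro s hs
  have hx : (fun _ => 1 : Fin ((m + 1) + (m + 1)) → ℝ) ∈ (U0 m).pts :=
    show (0 : ℝ) < 1 by norm_num
  have h0 : lead (W (H s)) ⟨_, hx⟩ = (0 : Matrix _ _ ℝ) := by
    have : W (m := m) (H s) = 0 := hs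
    rw [this, lead_zero]
  have h1 : (X : PowerSeries ℝ) ^ (m + 1) ∣ H s * cx (m := m) ⟨_, hx⟩ := by
    rw [X_pow_dvd_iff]
    intro j hj
    have h3 := congrFun (congrFun h0 (I0 ⟨j, hj⟩)) (I1 (Fin.last m))
    rw [lead_W] at h3
    simp only [gM, Fin.addCases_left, Fin.addCases_right, T, Fin.val_last, Nat.sub_self,
      pow_zero, mul_one, Matrix.zero_apply] at h3
    exact h3
  have h2 : (X : PowerSeries ℝ) ^ (m + 1) ∣ H s := by
    have h3 : H s = mp (evH ⟨_, hx⟩) (aR m) * (H s * cx (m := m) ⟨_, hx⟩) := by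
      have := cx_unit (m := m) ⟨_, hx⟩
      linear_combination -(H s) * this
    rw [h3]
    exact dvd_mul_of_dvd_right h1 _
  rw [X_pow_dvd_iff] at h2
  funext k
  have h3 := h2 k k.2
  rw [coeff_H] at h3
  exact h3

/-- multiplication by `ε` modulo `ε^(m+1)` -/
def shift (s : Fin (m + 1) → ℝ) : Fin (m + 1) → ℝ := fun k => coeff (k : ℕ) (X * H s)

theorem recursion_Fam {s : Fin (m + 1) → ℝ} (h : s 0 ≠ 0) (x : (U0 m).pts) :
    (lead (Fam m s) x)⁻¹ * lead (Fam m (shift s)) x = Sh m := by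
  obtain ⟨z, hz⟩ := trunc (m := m) (X * H s)
  have h1 : lead (W (X * H s)) x = lead (Fam m (shift s)) x := by
    have h2 := lead_add (H (shift s)) (X ^ (m + 1) * z) x
    rw [lead_high, add_zero] at h2
    have h3 : (X : PowerSeries ℝ) * H s = H (shift s) + X ^ (m + 1) * z := hz
    rw [h3, h2]
    rfl
  have h4 : coeff 0 (H s) ≠ 0 := by
    have := coeff_H s 0
    rw [Fin.val_zero] at this
    rw [this]
    exact h
  rw [← h1]
  exact recursion h4 x

end

end Pool.Agent.Y103.TO
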