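import Pool.Agent.Y103.TO.Lift

/-!
# The family of structures
-/

set_option autoImplicit false

namespace Pool.Agent.Y103.TO

open PowerSeries
open Pool.Agent.Helper974.Diff Pool.Agent.Helper974.Ham Pool.Agent.Helper974.DiffPoly
  Pool.Agent.Helper974.Third
open Pool.Agent.Results.MP_1a410c_mp.Compatible (DOp act br Exact IsPoisson lead IsGeometric gam
  flatOp act_flatOp D_C exact_iff hom_flatOp NotDarboux)

noncomputable section

variable {m : ℕ}

/-- the domain `u^1_0 > 0` -/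
def U0 (m : ℕ) : Dom ((m + 1) + (m + 1)) :=
  ⟨{x | 0 < x (I0 0)}, isOpen_lt continuous_const (continuous_apply _)⟩

lemma an_inv : IsAn (U0 m) (fun x => (x (I0 0))⁻¹) := fun x hx =>
  (an_coord (U := U0 m) (I0 0) x hx).inv (ne_of_gt hx)

/-- the coordinate `u^1_0`, an invertible function -/
def uU (m : ℕ) : (RegT (U0 m))ˣ where
  val := coord (I0 0)
  inv := mk (fun x => (x (I0 0))⁻¹) an_inv
  val_inv := by
    apply reg_ext
    intro x
    have : (0 : ℝ) < x.1 (I0 0) := x.2
    show x.1 (I0 0) * (x.1 (I0 0))⁻¹ = 1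
    field_simp
  inv_val := by
    apply reg_ext
    intro x
    have : (0 : ℝ) < x.1 (I0 0) := x.2
    show (x.1 (I0 0))⁻¹ * x.1 (I0 0) = 1
    field_simp

/-- the power series with the coefficients `u^1_k` -/
def aR (m : ℕ) : PowerSeries (RegT (U0 m)) := K0 fun i => coord i

/-- the power series with the coefficients `u^2_k` -/
def bR (m : ℕ) : PowerSeries (RegT (U0 m)) := K1 fun i => coord i

/-- the inverse of `aR` -/
def cR (m : ℕ) : PowerSeries (RegT (U0 m)) := invOfUnit (aR m) (uU m)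

lemma a_mul_c : aR m * cR m = 1 := by
  refine mul_invOfUnit _ _ ?_
  rw [← coeff_zero_eq_constantCoeff_apply]
  exact coeff_H (fun k : Fin (m + 1) => (coord (I0 k) : RegT (U0 m))) 0

/-- the leading coefficients -/
def gW (s : PowerSeries ℝ) : Fin ((m + 1) + (m + 1)) → Fin ((m + 1) + (m + 1)) → RegT (U0 m) :=
  gM m (sV _ s * cR m) (sV _ s * (bR m * cR m ^ 2))

/-- the potentials of the coefficients `c^{ij}_r` -/
def hW (s : PowerSeries ℝ) : Fin ((m + 1) + (m + 1)) → Fin ((m + 1) + (m + 1)) → RegT (U0 m) :=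
  hM m (sV _ s * cR m) (sV _ s * (bR m * cR m ^ 2))

/-- the coefficients `c^{ij}_r = ∂h^{ij}/∂u^r` -/
def cW (s : PowerSeries ℝ) (i j r : Fin ((m + 1) + (m + 1))) : RegT (U0 m) := dR r (hW s i j)

/-- the family of structures -/
def W (s : PowerSeries ℝ) : DOp (U0 m) := flatOp (gW s) (cW s)

lemma gam_W (s : PowerSeries ℝ) (i j : Fin ((m + 1) + (m + 1))) :
    gam (cW s) i j = (dpAlg (U0 m)).D (MvPolynomial.C (hW s i j)) := (D_C _).symm

/-- the constant differential polynomials -/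
def cC (m : ℕ) : RH (RegT (U0 m)) (DP (U0 m)) := MvPolynomial.C

/-- the inverse of `u^1` over the differential polynomials -/
def cD (m : ℕ) : PowerSeries (DP (U0 m)) := mp (cC m) (cR m)

lemma cc_a : mp (cC m) (aR m) = aS (dpAlg (U0 m)) := by
  rw [aR, K0, mp_H]
  rfl

lemma cc_b : mp (cC m) (bR m) = bS (dpAlg (U0 m)) := by
  rw [bR, K1, mp_H]
  rfl

lemma hc0 : aS (dpAlg (U0 m)) * cD m = 1 := by
  rw [← cc_a, cD, ← map_mul, a_mul_c, map_one]

lemma C_gW (s : PowerSeries ℝ) (i j : Fin ((m + 1) + (m + 1))) :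
    (MvPolynomial.C (gW s i j) : DP (U0 m)) = gM m (sV (DP (U0 m)) s * cD m)
      (sV (DP (U0 m)) s * (bS (dpAlg (U0 m)) * cD m ^ 2)) i j := by
  rw [← cc_b]
  exact gM_mp' (cC m) (fun _ => rfl) s (cR m) (bR m) i j

lemma C_hW (s : PowerSeries ℝ) (i j : Fin ((m + 1) + (m + 1))) :
    (MvPolynomial.C (hW s i j) : DP (U0 m)) = hM m (sV (DP (U0 m)) s * cD m)
      (sV (DP (U0 m)) s * (bS (dpAlg (U0 m)) * cD m ^ 2)) i j := by
  rw [← cc_b]
  exact hM_mp' (cC m) (fun _ => rfl) s (cR m) (bR m) i j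

lemma hsW (s : PowerSeries ℝ) : ConstS (sV (DP (U0 m)) s) := constS_sV _ s

theorem act_W (s : PowerSeries ℝ) (q : Fin ((m + 1) + (m + 1)) → DP (U0 m))
    (i : Fin ((m + 1) + (m + 1))) :
    act (W s) q i = Op (dpAlg (U0 m)) (cD m) (sV (DP (U0 m)) s) q i := by
  rw [W, act_flatOp, Op_eq (dpAlg (U0 m)) (hsW s)]
  refine Finset.sum_congr rfl fun j _ => ?_
  rw [gam_W, C_gW, C_hW]

theorem cl_br (s : PowerSeries ℝ) (f g : DP (U0 m)) :
    cl (dpAlg (U0 m)) (br (W s) f g)
      = ∑ i, cl (dpAlg (U0 m)) ((dpAlg (U0 m)).E i f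
          * Op (dpAlg (U0 m)) (cD m) (sV (DP (U0 m)) s)
            (fun j => (dpAlg (U0 m)).E j g) i) := by
  simp only [br, ← E_eq, act_W, map_sum]

theorem poisson_W (s : PowerSeries ℝ) : IsPoisson (W (m := m) s) := by
  have hs := hsW (m := m) s
  constructor
  · intro F G
    rw [exact_iff, map_add, cl_br, cl_br, hskew (dpAlg (U0 m)) hs, neg_add_cancel]
  · intro F G H
    rw [exact_iff, map_add, map_add]
    exact jacobi_of (dpAlg (U0 m)) _ _ (hev (dpAlg (U0 m)) hc0 hs)
      (hskew (dpAlg (U0 m)) hs) (htri (dpAlg (U0 m)) hs) F G H (br (W s)) (cl_br s)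

/-! the leading matrix -/

/-- the value at a point -/
def evH (x : (U0 m).pts) : RH (RegT (U0 m)) ℝ where
  toFun f := ev f x
  map_one' := rfl
  map_mul' _ _ := rfl
  map_zero' := rfl
  map_add' _ _ := rfl

lemma evH_s (x : (U0 m).pts) (s : PowerSeries ℝ) : mp (evH x) (sV _ s) = s :=
  mp_sV' (evH x) (fun _ => rfl) s

/-- the inverse of `aR` at a point -/
def cx (x : (U0 m).pts) : PowerSeries ℝ := mp (evH x) (cR m)

lemma lead_W (s : PowerSeries ℝ) (x : (U0 m).pts) (i j : Fin ((m + 1) + (m + 1))) :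
    lead (W s) x i j = gM m (s * cx x) (s * (mp (evH x) (bR m) * cx x ^ 2)) i j := by
  have h1 : lead (W s) x i j = evH x (gW s i j) := by
    show ev ((MvPolynomial.C (gW s i j) : DP (U0 m)).coeff 0) x = _
    rw [MvPolynomial.coeff_C, if_pos rfl]
    rfl
  rw [h1]
  exact gM_ev (evH x) (fun _ => rfl) s (cR m) (bR m) i j

lemma cx_unit (x : (U0 m).pts) : mp (evH x) (aR m) * cx x = 1 := by
  rw [cx, ← map_mul, a_mul_c, map_one]

/-- the inverse of a power series with nonzero constant coefficient -/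
lemma inv_s {s : PowerSeries ℝ} (h : coeff 0 s ≠ 0) : s⁻¹ * s = 1 := by
  refine PowerSeries.inv_mul_cancel s ?_
  rwa [← coeff_zero_eq_constantCoeff_apply]

lemma det_lead {s : PowerSeries ℝ} (h : coeff 0 s ≠ 0) (x : (U0 m).pts) :
    (lead (W s) x).det ≠ 0 := by
  intro h0
  obtain ⟨v, hv, hv0⟩ := Matrix.exists_mulVec_eq_zero_iff.mpr h0
  have hu : (mp (evH x) (aR m) * s⁻¹) * (s * cx x) = 1 := by
    have h1 := cx_unit x
    have h2 := inv_s h
    linear_combination (mp (evH x) (aR m) * cx x) * h2 + h1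
  have e1 : ∀ k : Fin (m + 1), ∑ l, T m (s * cx x) k l * v (I1 l) = 0 := by
    intro k
    have := congrFun hv0 (I0 k)
    rw [Matrix.mulVec, dotProduct, Fin.sum_univ_add] at this
    simp only [lead_W, gM, Fin.addCases_left, Fin.addCases_right, zero_mul,
      Finset.sum_const_zero, zero_add, Pi.zero_apply] at this
    exact this
  have f1 := Q_eq_zero hu e1
  have e2 : ∀ k : Fin (m + 1), ∑ l, T m (s * cx x) k l * v (I0 l) = 0 := by
    intro k
    have := congrFun hv0 (I1 k)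
    rw [Matrix.mulVec, dotProduct, Fin.sum_univ_add] at this
    have f2 : ∀ l : Fin (m + 1), v (I1 l) = 0 := fun l => congrFun f1 l
    simp only [lead_W, gM, Fin.addCases_left, Fin.addCases_right, f2, mul_zero,
      Finset.sum_const_zero, add_zero, Pi.zero_apply] at this
    exact this
  have f2 := Q_eq_zero hu e2
  apply hv
  funext i
  exact Fin.addCases (fun l => congrFun f2 l) (fun l => congrFun f1 l) i

theorem geometric_W {s : PowerSeries ℝ} (h : coeff 0 s ≠ 0) : IsGeometric (W (m := m) s) :=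
  ⟨hom_flatOp _ _, det_lead h, poisson_W s⟩

end

end Pool.Agent.Y103.TO
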