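import Pool.Agent.Y103.TO.Ser
import Pool.Agent.Results.MP_1a410c_mp.Compatible

/-!
# The lifted operator
-/

set_option autoImplicit false

namespace Pool.Agent.Y103.TO

open PowerSeries
open Pool.Agent.Helper974.Diff Pool.Agent.Helper974.Ham Pool.Agent.Helper974.DiffPoly
  Pool.Agent.Helper974.Third
open Pool.Agent.Results.MP_1a410c_mp.Compatible (E_Pa E_Pb dPa_smul dPb_smul)

noncomputable section

section Ring

variable {R : Type} [CommRing R] [Algebra ℝ R] (D : Derivation ℝ R R)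

theorem dPa_add (c w v q1 : R) : dPa D c (w + v) q1 = dPa D c w q1 + dPa D c v q1 := by
  simp only [dPa, dQa, ← map_add]
  congr 2
  ring

theorem dPb_add (b c w0 w1 v0 v1 q0 q1 : R) :
    dPb D b c (w0 + v0) (w1 + v1) q0 q1 = dPb D b c w0 w1 q0 q1 + dPb D b c v0 v1 q0 q1 := by
  simp only [dPb, dQb, ← map_add]
  congr 1
  have e : ∀ z : R, ((w1 + v1) * c ^ 2 - 2 * b * c ^ 3 * (w0 + v0)) * z
      = (w1 * c ^ 2 - 2 * b * c ^ 3 * w0) * z + (v1 * c ^ 2 - 2 * b * c ^ 3 * v0) * z := by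
    intro z
    ring
  simp only [e, map_add]
  ring

end Ring

/-- the index of `u^1_k` -/
abbrev I0 {m : ℕ} (k : Fin (m + 1)) : Fin ((m + 1) + (m + 1)) := Fin.castAdd (m + 1) k

/-- the index of `u^2_k` -/
abbrev I1 {m : ℕ} (k : Fin (m + 1)) : Fin ((m + 1) + (m + 1)) := Fin.natAdd (m + 1) k

variable {V : Type} [CommRing V] [Algebra ℝ V] {m : ℕ}

def q0 (q : Fin ((m + 1) + (m + 1)) → V) : PowerSeries V := Q fun k => q (I0 k)
def q1 (q : Fin ((m + 1) + (m + 1)) → V) : PowerSeries V := Q fun k => q (I1 k)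
def K0 (q : Fin ((m + 1) + (m + 1)) → V) : PowerSeries V := H fun k => q (I0 k)
def K1 (q : Fin ((m + 1) + (m + 1)) → V) : PowerSeries V := H fun k => q (I1 k)

variable (A : DiffAlg ((m + 1) + (m + 1)) V)

def aS : PowerSeries V := K0 fun i => A.u (i, 0)
def bS : PowerSeries V := K1 fun i => A.u (i, 0)

variable (c s : PowerSeries V)

/-- the lifted operator -/
def Op (q : Fin ((m + 1) + (m + 1)) → V) : Fin ((m + 1) + (m + 1)) → V :=
  Fin.addCases (fun k => coeff (k : ℕ) (s * Pa (hat A.D) c (q1 q)))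
    (fun k => coeff (k : ℕ) (s * Pb (hat A.D) (bS A) c (q0 q) (q1 q)))

/-- its derivative -/
def dOp (K q : Fin ((m + 1) + (m + 1)) → V) : Fin ((m + 1) + (m + 1)) → V :=
  Fin.addCases (fun k => coeff (k : ℕ) (s * dPa (hat A.D) c (K0 K) (q1 q)))
    (fun k => coeff (k : ℕ) (s * dPb (hat A.D) (bS A) c (K0 K) (K1 K) (q0 q) (q1 q)))

variable {c s} (hc : aS A * c = 1) (hs : ConstS s)

lemma hat_aS (K : Fin ((m + 1) + (m + 1)) → V) : hat (A.ev K) (aS A) = K0 K := by
  rw [aS, K0, hat_H]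
  congr 1
  funext k
  exact A.der_u _ _

lemma hat_bS (K : Fin ((m + 1) + (m + 1)) → V) : hat (A.ev K) (bS A) = K1 K := by
  rw [bS, K1, hat_H]
  congr 1
  funext k
  exact A.der_u _ _

include hc in
lemma hat_c (K : Fin ((m + 1) + (m + 1)) → V) : hat (A.ev K) c = -(c ^ 2 * K0 K) := by
  have h := congrArg (hat (A.ev K)) hc
  rw [Derivation.leibniz, Derivation.map_one_eq_zero, hat_aS, smul_eq_mul, smul_eq_mul] at h
  linear_combination c * h - (hat (A.ev K) c) * hc

include hc hs in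
theorem hev (K q : Fin ((m + 1) + (m + 1)) → V) (i : Fin ((m + 1) + (m + 1))) :
    A.ev K (Op A c s q i) = dOp A c s K q i + Op A c s (fun j => A.ev K (q j)) i := by
  have k1 := E_Pa (hat A.D) (hat (A.ev K)) (hat_comm _ _ (A.ev_D K)) c (K0 K) (q1 q)
    (hat_c A hc K)
  have k2 := E_Pb (hat A.D) (hat (A.ev K)) (hat_comm _ _ (A.ev_D K)) (bS A) c (K0 K) (K1 K)
    (q0 q) (q1 q) (hat_c A hc K) (hat_bS A K)
  have m1 : hat (A.ev K) (q1 q) = q1 (fun j => A.ev K (q j)) := hat_Q _ _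
  have m0 : hat (A.ev K) (q0 q) = q0 (fun j => A.ev K (q j)) := hat_Q _ _
  rw [m1] at k1 k2
  rw [m0] at k2
  refine Fin.addCases (fun k => ?_) (fun k => ?_) i
  · simp only [Op, dOp, Fin.addCases_left]
    rw [← coeff_hat, Derivation.leibniz, hs, k1, smul_zero, add_zero, smul_eq_mul, mul_add,
      map_add]
  · simp only [Op, dOp, Fin.addCases_right]
    rw [← coeff_hat, Derivation.leibniz, hs, k2, smul_zero, add_zero, smul_eq_mul, mul_add,
      map_add]

/-- the functional on power series -/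
def tau (s : PowerSeries V) : PowerSeries V →+ Fnl A where
  toFun x := cl A (coeff m (s * x))
  map_zero' := by simp
  map_add' x y := by rw [mul_add, map_add, map_add]

lemma tau_D {s : PowerSeries V} (hs : hat A.D s = 0) (x : PowerSeries V) :
    tau A s (hat A.D x) = 0 := by
  have h : s * hat A.D x = hat A.D (s * x) := by
    rw [Derivation.leibniz, hs]
    simp
  show cl A (coeff m (s * hat A.D x)) = 0
  rw [h, coeff_hat, cl_D]

lemma pairing (p : Fin ((m + 1) + (m + 1)) → V) (s Y Z : PowerSeries V) :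
    ∑ i, cl A (p i * (Fin.addCases (fun k => coeff (k : ℕ) (s * Y))
      (fun k => coeff (k : ℕ) (s * Z)) i : V)) = tau A s (q0 p * Y + q1 p * Z) := by
  have h : tau A s (q0 p * Y + q1 p * Z)
      = cl A (coeff m (q0 p * (s * Y)) + coeff m (q1 p * (s * Z))) := by
    show cl A (coeff m (s * (q0 p * Y + q1 p * Z))) = _
    rw [← map_add]
    congr 2
    ring
  rw [h, Fin.sum_univ_add]
  simp only [Fin.addCases_left, Fin.addCases_right]
  rw [← map_sum, ← map_sum, ← map_add, q0, q1, ← pair, ← pair]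

include hs in
theorem hskew (p q : Fin ((m + 1) + (m + 1)) → V) : ∑ i, cl A (p i * Op A c s q i)
    = - ∑ i, cl A (q i * Op A c s p i) := by
  simp only [Op]
  rw [pairing, pairing]
  exact skewP (hat A.D) _ (tau_D A (hs _)) _ _ _ _ _ _

include hs in
theorem key (p q r : Fin ((m + 1) + (m + 1)) → V) :
    ∑ i, cl A (p i * dOp A c s (Op A c s q) r i)
      = tau A (s * s) (q0 p * dPa (hat A.D) c (Pa (hat A.D) c (q1 q)) (q1 r)
        + q1 p * dPb (hat A.D) (bS A) c (Pa (hat A.D) c (q1 q))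
          (Pb (hat A.D) (bS A) c (q0 q) (q1 q)) (q0 r) (q1 r)) := by
  obtain ⟨z0, h0⟩ := trunc (m := m) (s * Pa (hat A.D) c (q1 q))
  obtain ⟨z1, h1⟩ := trunc (m := m) (s * Pb (hat A.D) (bS A) c (q0 q) (q1 q))
  have e0 : K0 (Op A c s q) = s * Pa (hat A.D) c (q1 q) + X ^ (m + 1) * (-z0) := by
    have : K0 (Op A c s q)
        = H (fun k : Fin (m + 1) => coeff (k : ℕ) (s * Pa (hat A.D) c (q1 q))) := by
      simp only [K0, Op, Fin.addCases_left]
    rw [this]
    linear_combination -h0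
  have e1 : K1 (Op A c s q) = s * Pb (hat A.D) (bS A) c (q0 q) (q1 q)
      + X ^ (m + 1) * (-z1) := by
    have : K1 (Op A c s q)
        = H (fun k : Fin (m + 1) => coeff (k : ℕ)
          (s * Pb (hat A.D) (bS A) c (q0 q) (q1 q))) := by
      simp only [K1, Op, Fin.addCases_right]
    rw [this]
    linear_combination -h1
  simp only [dOp]
  rw [pairing, e0, e1, dPa_add, dPb_add, dPa_smul _ _ _ _ _ (hs _),
    dPa_smul _ _ _ _ _ (hat_X_pow _ _), dPb_smul _ _ _ _ _ _ _ _ (hs _),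
    dPb_smul _ _ _ _ _ _ _ _ (hat_X_pow _ _)]
  generalize dPa (hat A.D) c (Pa (hat A.D) c (q1 q)) (q1 r) = a1
  generalize dPa (hat A.D) c (-z0) (q1 r) = a2
  generalize dPb (hat A.D) (bS A) c (Pa (hat A.D) c (q1 q))
          (Pb (hat A.D) (bS A) c (q0 q) (q1 q)) (q0 r) (q1 r) = b1
  generalize dPb (hat A.D) (bS A) c (-z0) (-z1) (q0 r) (q1 r) = b2
  show cl A (coeff m (s * (q0 p * (s * a1 + X ^ (m + 1) * a2)
    + q1 p * (s * b1 + X ^ (m + 1) * b2)))) = cl A (coeff m (s * s * (q0 p * a1 + q1 p * b1)))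
  have e2 : s * (q0 p * (s * a1 + X ^ (m + 1) * a2) + q1 p * (s * b1 + X ^ (m + 1) * b2))
      = s * s * (q0 p * a1 + q1 p * b1)
        + X ^ (m + 1) * (s * (q0 p * a2 + q1 p * b2)) := by ring
  rw [e2, map_add, coeff_high, add_zero]

include hs in
theorem htri (p q r : Fin ((m + 1) + (m + 1)) → V) :
    ∑ i, cl A (p i * dOp A c s (Op A c s q) r i)
      + ∑ i, cl A (q i * dOp A c s (Op A c s r) p i)
      + ∑ i, cl A (r i * dOp A c s (Op A c s p) q i) = 0 := by
  rw [key A hs, key A hs, key A hs]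
  refine trilinear (hat A.D) _ (tau_D A ?_) _ _ _ _ _ _ _ _
  rw [Derivation.leibniz, hs]
  simp

/-- leading coefficients -/
def gM (m : ℕ) (x y : PowerSeries V) (i j : Fin ((m + 1) + (m + 1))) : V :=
  Fin.addCases (fun k => Fin.addCases (fun _ => 0) (fun l => T m x k l) j)
    (fun k => Fin.addCases (fun l => T m x k l) (fun l => 2 * T m y k l) j) i

/-- potentials -/
def hM (m : ℕ) (x y : PowerSeries V) (i j : Fin ((m + 1) + (m + 1))) : V :=
  Fin.addCases (fun k => Fin.addCases (fun _ => 0) (fun l => T m x k l) j)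
    (fun k => Fin.addCases (fun _ => 0) (fun l => T m y k l) j) i

include hs in
theorem Op_eq (q : Fin ((m + 1) + (m + 1)) → V) (i : Fin ((m + 1) + (m + 1))) :
    Op A c s q i = ∑ j, A.D (gM m (s * c) (s * (bS A * c ^ 2)) i j * A.D (A.D (q j))
      + A.D (hM m (s * c) (s * (bS A * c ^ 2)) i j) * A.D (q j)) := by
  have hD : ∀ z : PowerSeries V, s * hat A.D z = hat A.D (s * z) := by
    intro z
    rw [Derivation.leibniz, hs, smul_zero, add_zero, smul_eq_mul]
  have h0 : hat A.D (hat A.D (q0 q)) = Q fun k => A.D (A.D (q (I0 k))) := by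
    rw [q0, hat_Q, hat_Q]
  have h1 : hat A.D (q1 q) = Q fun k => A.D (q (I1 k)) := by
    rw [q1, hat_Q]
  have h2 : hat A.D (hat A.D (q1 q)) = Q fun k => A.D (A.D (q (I1 k))) := by
    rw [q1, hat_Q, hat_Q]
  refine Fin.addCases (fun k => ?_) (fun k => ?_) i
  · have e : s * Pa (hat A.D) c (q1 q)
        = hat A.D (hat A.D ((s * c) * Q fun k => A.D (q (I1 k)))) := by
      rw [Pa, Qa, hD, hD, h1, mul_assoc]
    rw [Fin.sum_univ_add]
    simp only [Op, gM, hM, Fin.addCases_left, Fin.addCases_right, zero_mul, map_zero, add_zero,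
      Finset.sum_const_zero, zero_add]
    rw [e, coeff_hat, coeff_hat, coeff_mul_Q, map_sum, map_sum]
    refine Finset.sum_congr rfl fun l _ => ?_
    rw [Derivation.leibniz, smul_eq_mul, smul_eq_mul, mul_comm (A.D (q (I1 l)))]
  · have e : s * Pb (hat A.D) (bS A) c (q0 q) (q1 q)
        = hat A.D ((s * c) * (Q fun k => A.D (A.D (q (I0 k))))
          + (s * (bS A * c ^ 2)) * (Q fun k => A.D (A.D (q (I1 k))))
          + hat A.D ((s * (bS A * c ^ 2)) * Q fun k => A.D (q (I1 k)))) := by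
      rw [Pb, Qb, hD, h0, h2, h1, mul_add, mul_add, hD]
      simp only [mul_assoc]
    rw [Fin.sum_univ_add]
    simp only [Op, gM, hM, Fin.addCases_left, Fin.addCases_right, zero_mul, map_zero, add_zero]
    have hA : ∀ x y z : V, A.D (x + y + z) = A.D x + A.D (y + z) := by
      intro x y z
      rw [map_add, map_add, map_add, add_assoc (A.D x)]
    rw [e, coeff_hat, map_add (coeff (k : ℕ)), map_add (coeff (k : ℕ)), coeff_hat, coeff_mul_Q,
      coeff_mul_Q, coeff_mul_Q, map_sum A.D, hA, map_sum A.D,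
      ← Finset.sum_add_distrib, map_sum A.D]
    congr 1
    refine Finset.sum_congr rfl fun l _ => ?_
    congr 1
    rw [Derivation.leibniz, smul_eq_mul, smul_eq_mul]
    ring

omit [Algebra ℝ V] in
lemma gM_mp {V' : Type} [CommRing V'] (f : V →+* V') (x y : PowerSeries V)
    (i j : Fin ((m + 1) + (m + 1))) : f (gM m x y i j) = gM m (mp f x) (mp f y) i j := by
  refine Fin.addCases (fun k => ?_) (fun k => ?_) i <;>
  refine Fin.addCases (fun l => ?_) (fun l => ?_) j <;>
  simp only [gM, Fin.addCases_left, Fin.addCases_right, T_mp, map_zero, map_mul, map_ofNat]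

omit [Algebra ℝ V] in
lemma hM_mp {V' : Type} [CommRing V'] (f : V →+* V') (x y : PowerSeries V)
    (i j : Fin ((m + 1) + (m + 1))) : f (hM m x y i j) = hM m (mp f x) (mp f y) i j := by
  refine Fin.addCases (fun k => ?_) (fun k => ?_) i <;>
  refine Fin.addCases (fun l => ?_) (fun l => ?_) j <;>
  simp only [hM, Fin.addCases_left, Fin.addCases_right, T_mp, map_zero]

lemma gM_mp' {V' : Type} [CommRing V'] [Algebra ℝ V'] (f : V →+* V')
    (hf : ∀ r : ℝ, f (algebraMap ℝ V r) = algebraMap ℝ V' r) (s : PowerSeries ℝ)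
    (c b : PowerSeries V) (i j : Fin ((m + 1) + (m + 1))) :
    f (gM m (sV V s * c) (sV V s * (b * c ^ 2)) i j)
      = gM m (sV V' s * mp f c) (sV V' s * (mp f b * mp f c ^ 2)) i j := by
  rw [gM_mp, map_mul, map_mul, map_mul, map_pow, mp_sV f hf]

lemma hM_mp' {V' : Type} [CommRing V'] [Algebra ℝ V'] (f : V →+* V')
    (hf : ∀ r : ℝ, f (algebraMap ℝ V r) = algebraMap ℝ V' r) (s : PowerSeries ℝ)
    (c b : PowerSeries V) (i j : Fin ((m + 1) + (m + 1))) :
    f (hM m (sV V s * c) (sV V s * (b * c ^ 2)) i j)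
      = hM m (sV V' s * mp f c) (sV V' s * (mp f b * mp f c ^ 2)) i j := by
  rw [hM_mp, map_mul, map_mul, map_mul, map_pow, mp_sV f hf]

lemma gM_ev (f : V →+* ℝ) (hf : ∀ r : ℝ, f (algebraMap ℝ V r) = r) (s : PowerSeries ℝ)
    (c b : PowerSeries V) (i j : Fin ((m + 1) + (m + 1))) :
    f (gM m (sV V s * c) (sV V s * (b * c ^ 2)) i j)
      = gM m (s * mp f c) (s * (mp f b * mp f c ^ 2)) i j := by
  rw [gM_mp, map_mul, map_mul, map_mul, map_pow, mp_sV' f hf]

end

end Pool.Agent.Y103.TO
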