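import Mathlib

/-!
# Power series with coefficients in a differential algebra
-/

set_option autoImplicit false

namespace Pool.Agent.Y103.TO

open PowerSeries

noncomputable section

variable {V : Type} [CommRing V] [Algebra ℝ V]

/-- a derivation applied to the coefficients of power series -/
def hat (d : Derivation ℝ V V) : Derivation ℝ (PowerSeries V) (PowerSeries V) :=
  Derivation.mk'
    { toFun := fun x => PowerSeries.mk fun n => d (coeff n x)
      map_add' := by
        intro x y
        ext n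
        simp
      map_smul' := by
        intro r x
        ext n
        rw [coeff_mk, RingHom.id_apply]
        have h1 : coeff n (r • x) = r • coeff n x := rfl
        have h2 : ∀ z : PowerSeries V, coeff n (r • z) = r • coeff n z := fun _ => rfl
        rw [h1, h2, coeff_mk, Derivation.map_smul] }
    (by
      intro x y
      ext n
      simp only [LinearMap.coe_mk, AddHom.coe_mk, coeff_mk, smul_eq_mul, map_add, coeff_mul,
        map_sum, Derivation.leibniz, Finset.sum_add_distrib]
      congr 1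
      exact Finset.sum_equiv (Equiv.prodComm _ _) (fun x => by simp [add_comm])
        (fun x _ => rfl))

lemma coeff_hat (d : Derivation ℝ V V) (n : ℕ) (x : PowerSeries V) :
    coeff n (hat d x) = d (coeff n x) := coeff_mk n fun j => d (coeff j x)

lemma hat_C (d : Derivation ℝ V V) (r : V) : hat d (C r) = C (d r) := by
  ext n
  rw [coeff_hat, coeff_C, coeff_C]
  split_ifs
  · rfl
  · exact map_zero _

lemma hat_X_pow (d : Derivation ℝ V V) (j : ℕ) : hat d (X ^ j : PowerSeries V) = 0 := by
  ext n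
  rw [coeff_hat, coeff_X_pow, map_zero]
  split_ifs
  · exact Derivation.map_one_eq_zero _
  · exact map_zero _

lemma hat_map (d : Derivation ℝ V V) (s : PowerSeries ℝ) :
    hat d (PowerSeries.map (algebraMap ℝ V) s) = 0 := by
  ext n
  rw [coeff_hat, coeff_map, Derivation.map_algebraMap, map_zero]

lemma hat_comm (d e : Derivation ℝ V V) (h : ∀ x, e (d x) = d (e x)) (x : PowerSeries V) :
    hat e (hat d x) = hat d (hat e x) := by
  ext n
  simp only [coeff_hat, h]

variable {m : ℕ}

/-- `∑ q_l ε^(m-l)` -/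
def Q (q : Fin (m + 1) → V) : PowerSeries V := ∑ l, C (q l) * X ^ (m - (l : ℕ))

/-- `∑ K_l ε^l` -/
def H (K : Fin (m + 1) → V) : PowerSeries V := ∑ l, C (K l) * X ^ (l : ℕ)

/-- the Hankel matrix `x_(k+l-m)` -/
def T (m : ℕ) (x : PowerSeries V) (k l : Fin (m + 1)) : V :=
  coeff (k : ℕ) (x * X ^ (m - (l : ℕ)))

lemma hat_Q (d : Derivation ℝ V V) (q : Fin (m + 1) → V) :
    hat d (Q q) = Q (fun l => d (q l)) := by
  rw [Q, Q, map_sum]
  refine Finset.sum_congr rfl fun l _ => ?_
  rw [Derivation.leibniz, hat_X_pow, smul_zero, zero_add, hat_C, smul_eq_mul, mul_comm]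

lemma hat_H (d : Derivation ℝ V V) (q : Fin (m + 1) → V) :
    hat d (H q) = H (fun l => d (q l)) := by
  rw [H, H, map_sum]
  refine Finset.sum_congr rfl fun l _ => ?_
  rw [Derivation.leibniz, hat_X_pow, smul_zero, zero_add, hat_C, smul_eq_mul, mul_comm]

omit [Algebra ℝ V] in
lemma coeff_mul_Q (x : PowerSeries V) (q : Fin (m + 1) → V) (k : Fin (m + 1)) :
    coeff (k : ℕ) (x * Q q) = ∑ l, T m x k l * q l := by
  rw [Q, Finset.mul_sum, map_sum]
  refine Finset.sum_congr rfl fun l _ => ?_
  have h : x * (C (q l) * X ^ (m - (l : ℕ))) = C (q l) * (x * X ^ (m - (l : ℕ))) := by ring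
  rw [h, coeff_C_mul, T, mul_comm]

omit [Algebra ℝ V] in
lemma pair (p : Fin (m + 1) → V) (y : PowerSeries V) :
    ∑ k : Fin (m + 1), p k * coeff (k : ℕ) y = coeff m (Q p * y) := by
  rw [Q, Finset.sum_mul, map_sum]
  refine Finset.sum_congr rfl fun l _ => ?_
  have hl := l.2
  rw [mul_assoc, coeff_C_mul, coeff_X_pow_mul', if_pos (by omega)]
  congr 3
  omega

omit [Algebra ℝ V] in
lemma coeff_H (K : Fin (m + 1) → V) (k : Fin (m + 1)) : coeff (k : ℕ) (H K) = K k := by
  rw [H, map_sum, Finset.sum_eq_single k]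
  · rw [coeff_C_mul, coeff_X_pow, if_pos rfl, mul_one]
  · intro l _ hl
    rw [coeff_C_mul, coeff_X_pow, if_neg, mul_zero]
    exact fun h => hl (Fin.ext h.symm)
  · intro h
    exact absurd (Finset.mem_univ _) h

omit [Algebra ℝ V] in
lemma coeff_Q (K : Fin (m + 1) → V) (k : Fin (m + 1)) :
    coeff (m - (k : ℕ)) (Q K) = K k := by
  rw [Q, map_sum, Finset.sum_eq_single k]
  · rw [coeff_C_mul, coeff_X_pow, if_pos rfl, mul_one]
  · intro l _ hl
    rw [coeff_C_mul, coeff_X_pow, if_neg, mul_zero]
    intro h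
    have h1 := l.2
    have h2 := k.2
    exact hl (Fin.ext (by omega))
  · intro h
    exact absurd (Finset.mem_univ _) h

omit [Algebra ℝ V] in
lemma trunc (y : PowerSeries V) :
    ∃ z, y = H (fun k : Fin (m + 1) => coeff (k : ℕ) y) + X ^ (m + 1) * z := by
  have h : (X : PowerSeries V) ^ (m + 1) ∣ y - H (fun k : Fin (m + 1) => coeff (k : ℕ) y) := by
    rw [X_pow_dvd_iff]
    intro j hj
    have := coeff_H (fun k : Fin (m + 1) => coeff (k : ℕ) y) ⟨j, hj⟩
    rw [map_sub, this, sub_self]
  obtain ⟨z, hz⟩ := h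
  exact ⟨z, by rw [← hz]; ring⟩

omit [Algebra ℝ V] in
lemma coeff_high (z : PowerSeries V) : coeff m (X ^ (m + 1) * z) = 0 := by
  rw [coeff_X_pow_mul', if_neg (by omega)]

omit [Algebra ℝ V] in
/-- a power series with vanishing coefficients `0, ..., m` of its product with a unit -/
lemma Q_eq_zero {x : PowerSeries V} {u : PowerSeries V} (hu : u * x = 1) {q : Fin (m + 1) → V}
    (h : ∀ k : Fin (m + 1), ∑ l, T m x k l * q l = 0) : q = 0 := by
  have h1 : (X : PowerSeries V) ^ (m + 1) ∣ x * Q q := by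
    rw [X_pow_dvd_iff]
    intro j hj
    have := coeff_mul_Q x q ⟨j, hj⟩
    rw [h] at this
    exact this
  have h2 : (X : PowerSeries V) ^ (m + 1) ∣ Q q := by
    have h3 : Q q = u * (x * Q q) := by rw [← mul_assoc, hu, one_mul]
    rw [h3]
    exact dvd_mul_of_dvd_right h1 u
  rw [X_pow_dvd_iff] at h2
  funext k
  have h3 := h2 (m - (k : ℕ)) (by omega)
  rw [coeff_Q] at h3
  exact h3

/-- real power series as power series over `V` -/
def sV (V : Type) [CommRing V] [Algebra ℝ V] (s : PowerSeries ℝ) : PowerSeries V :=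
  PowerSeries.map (algebraMap ℝ V) s

lemma hat_sV (d : Derivation ℝ V V) (s : PowerSeries ℝ) : hat d (sV V s) = 0 := hat_map d s

/-- all derivations of the coefficients vanish on `s` -/
def ConstS (s : PowerSeries V) : Prop := ∀ d : Derivation ℝ V V, hat d s = 0

variable (V) in
lemma constS_sV (s : PowerSeries ℝ) : ConstS (sV V s) := fun d => hat_sV d s

lemma coeff_sV (n : ℕ) (s : PowerSeries ℝ) :
    coeff n (sV V s) = algebraMap ℝ V (coeff n s) := coeff_map _ _ _

lemma sV_add (s t : PowerSeries ℝ) : sV V (s + t) = sV V s + sV V t := map_add _ _ _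

lemma sV_C (r : ℝ) (s : PowerSeries ℝ) : sV V (C r * s) = C (algebraMap ℝ V r) * sV V s := by
  rw [sV, map_mul, map_C]
  rfl

/-- homomorphisms of commutative rings -/
abbrev RH (V V' : Type) [CommRing V] [CommRing V'] : Type := V →+* V'

/-- derivations -/
abbrev Der (V : Type) [CommRing V] [Algebra ℝ V] : Type := Derivation ℝ V V

/-- a homomorphism applied to the coefficients -/
def mp {V V' : Type} [CommRing V] [CommRing V'] (f : V →+* V') :
    PowerSeries V →+* PowerSeries V' := PowerSeries.map f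

section Map

variable {V V' : Type} [CommRing V] [CommRing V'] (f : V →+* V')

lemma coeff_mp (n : ℕ) (x : PowerSeries V) : coeff n (mp f x) = f (coeff n x) :=
  coeff_map _ _ _

lemma mp_H (K : Fin (m + 1) → V) : mp f (H K) = H fun k => f (K k) := by
  rw [mp, H, H, map_sum]
  refine Finset.sum_congr rfl fun k _ => ?_
  rw [map_mul, map_C, map_pow, map_X]

lemma T_mp (x : PowerSeries V) (k l : Fin (m + 1)) : f (T m x k l) = T m (mp f x) k l := by
  rw [T, T, ← coeff_mp, map_mul, map_pow, mp, map_X]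

lemma mp_sV [Algebra ℝ V] [Algebra ℝ V'] (hf : ∀ r : ℝ, f (algebraMap ℝ V r)
    = algebraMap ℝ V' r) (s : PowerSeries ℝ) : mp f (sV V s) = sV V' s := by
  ext n
  rw [coeff_mp, coeff_sV, coeff_sV, hf]

lemma mp_sV' [Algebra ℝ V] (g : V →+* ℝ) (hg : ∀ r : ℝ, g (algebraMap ℝ V r) = r)
    (s : PowerSeries ℝ) : mp g (sV V s) = s := by
  ext n
  rw [coeff_mp, coeff_sV, hg]

end Map

end

end Pool.Agent.Y103.TO
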